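import Pool.Agent.Lib.MP_d6ddbd_nt.E11.Hec
import Pool.Agent.Lib.MP_d6ddbd_nt.E11.Grp

/-!
The Hecke correspondence of degree three on `X₀(11)`: the cubic equation of the quotients of the
cusp form.
-/

set_option autoImplicit false

open UpperHalfPlane Filter Topology PowerSeries Pointwise
open scoped MatrixGroups
open Pool.Agent.Lib.MP_9177b7_ag.CM Pool.Agent.Lib.MP_9177b7_ag.CM.Norm
open Pool.Agent.Lib.MP_d6ddbd_nt.X (fa qq_ne hq_congr hq_smul hq_sum hq_unique hq_hol hq_bdd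
  hq_tendsto hq_exists hq_divX hq_prod hq_sub hq_add hq_X Ex)
open Pool.Agent.Lib.MP_02f36d_nt (xc yc pt_ext)
open Pool.Agent.Lib.MP_d6ddbd_nt.K11 (Pt Lv Nb G xc_smul yc_smul UnifStmt)

noncomputable section

namespace Pool.Agent.Lib.MP_d6ddbd_nt.E11

theorem ser_H3 : ∃ ρ : PowerSeries ℂ, HQ 1 Hh (X - 2 * X ^ 2 - X ^ 3 + X ^ 4 * ρ) := by
  obtain ⟨φ, h1, h2⟩ : Ex 0 3 (fun τ => X.pe τ ^ 2 * X.pe (up τ) ^ 2) [1, -2, -1] :=
    (X.ex_p2.mul (ex_up X.ex_p2 le_rfl)).congr (by norm_num) (by decide +kernel) fun _ => rfl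
  obtain ⟨ρ, hρ⟩ : X ^ 3 ∣ φ.map (algebraMap ℚ ℂ) - (1 - 2 * X - X ^ 2) := X_pow_dvd_iff.2 fun i hi => by
    rw [map_sub, coeff_map, h2 i hi, show (2 : PowerSeries ℂ) = C 2 from rfl]
    interval_cases i <;> simp [coeff_one, coeff_X_pow]
  refine ⟨ρ, ?_⟩
  rw [show X - 2 * X ^ 2 - X ^ 3 + X ^ 4 * ρ = X * φ.map (algebraMap ℚ ℂ) by
    linear_combination -X * hρ]
  exact hq_congr (HQ_mul (hq_X 1) h1) fun τ => by rw [Hh_eq]; ring

theorem zt_two : zt 2 = -1 := by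
  rw [zt, ← Complex.exp_pi_mul_I]
  congr 1
  push_cast
  ring

theorem cubic (T : ℂ) (τ : ℍ) : ∏ i, (T - 4 / nc 2 i ^ 2 * Hh (nz 2 τ i) / Hh τ) =
    T ^ 3 + 4 * T ^ 2 - (hm τ - 2) * T + 4 := by
  have hl := Nat.prime_two
  have h11 : 2 ≠ 11 := by norm_num
  have h0 : 2 ≠ 0 := two_ne_zero
  set R : ℍ → ℂ := fun τ => ∏ i, (T - 4 / nc 2 i ^ 2 * Hh (nz 2 τ i) / Hh τ) with hR
  have h1 : ∀ γ ∈ G0, ∀ τ, R (γ • τ) = R τ := fun γ hγ τ => by
    obtain ⟨e, he⟩ := perm_smul hl h11 hγ τ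
    simp only [hR]
    rw [← Equiv.prod_comp e]
    refine Finset.prod_congr rfl fun i _ => ?_
    obtain ⟨δ, k1, k2, k3⟩ := he i
    have := nc_ne h0 i
    have := nc_ne h0 (e i)
    have : fa γ τ ≠ 0 := Lat.denom_ne γ τ
    have := Hh_ne τ
    rw [k2, Hh_smul k1, Hh_smul hγ, show fa δ (nz 2 τ i) = fa γ τ * nc 2 (e i) / nc 2 i by
      rw [k3]; field_simp]
    field_simp
  have h2 : ∀ τ, R (ww τ) = R τ := fun τ => by
    obtain ⟨e, he⟩ := perm_ww hl h11 τ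
    simp only [hR]
    rw [← Equiv.prod_comp e]
    refine Finset.prod_congr rfl fun i _ => ?_
    obtain ⟨δ, k1, k2, k3⟩ := he i
    have := nc_ne h0 i
    have := nc_ne h0 (e i)
    have := (nz 2 τ i).ne_zero
    have := τ.ne_zero
    have := Hh_ne τ
    rw [k2, Hh_smul k1, Hh_ww, Hh_ww,
      show fa δ (ww (nz 2 τ i)) = τ * nc 2 (e i) / (nc 2 i * nz 2 τ i) by rw [k3]; field_simp]
    field_simp
  obtain ⟨ρ, h3⟩ := ser_H3
  obtain ⟨c, h5, h6⟩ := hq_down h0 (F := fun τ => R τ * Hh τ ^ 3)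
    (hq_congr (hq_prod Finset.univ fun i _ => hq_sub (hq_smul T (hq_lev h0 h3))
      (hq_smul (4 / nc 2 i ^ 2) (hq_nz h0 h3 i))) fun τ => by
        have := Hh_ne τ
        simp only [hR, Fintype.prod_option, Fin.prod_univ_two]
        field_simp)
    fun τ => by rw [h1 _ T_mem, Hh_smul T_mem]; simp [fa, ModularGroup.T]
  obtain ⟨S, hS⟩ : ∃ S, expand 2 h0 c =
      C (-T) * X ^ 4 + C (T ^ 3 + 4 * T ^ 2 + 8 * T + 4) * X ^ 6 + X ^ 7 * S := by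
    rw [h6]
    have e2 : ∀ f : PowerSeries ℂ →+* PowerSeries ℂ, f 2 = 2 := fun f => map_ofNat f 2
    simp only [Fintype.prod_option, Fin.prod_univ_two, ns, nc, Option.elim, zt_two, Fin.val_zero,
      Fin.val_one, pow_zero, pow_one, rescale_one, RingHom.id_apply, RingHom.comp_apply,
      AlgHom.toRingHom_eq_coe, RingHom.coe_coe, map_add, map_sub, map_mul, map_pow, expand_X,
      rescale_neg_one_X, map_ofNat, map_neg]
    generalize expand 2 h0 (expand 2 h0 ρ) = a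
    generalize expand 2 h0 ρ = b
    generalize rescale (-1) ρ = d
    rw [show C (4 / 1 ^ 2 : ℂ) = 4 by norm_num; rfl,
      show C (4 / ((2 : ℕ) : ℂ) ^ 2) = 1 by norm_num]
    generalize C T = t
    obtain ⟨η, e1⟩ : ∃ η, t * (X ^ 2 - 2 * (X ^ 2) ^ 2 - (X ^ 2) ^ 3 + (X ^ 2) ^ 4 * b) -
        4 * ((X ^ 2) ^ 2 - 2 * ((X ^ 2) ^ 2) ^ 2 - ((X ^ 2) ^ 2) ^ 3 + ((X ^ 2) ^ 2) ^ 4 * a) =
        X ^ 2 * (t - (2 * t + 4) * X ^ 2 + X ^ 3 * η) :=
      ⟨t * (-X + X ^ 3 * b) - 4 * (-2 * X ^ 3 - X ^ 7 + X ^ 11 * a), by ring⟩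
    obtain ⟨γ, e3⟩ : ∃ γ, t * (X ^ 2 - 2 * (X ^ 2) ^ 2 - (X ^ 2) ^ 3 + (X ^ 2) ^ 4 * b) -
        1 * (X - 2 * X ^ 2 - X ^ 3 + X ^ 4 * ρ) = X * (-1 + (t + 2) * X + X ^ 2 + X ^ 3 * γ) :=
      ⟨t * (-2 - X ^ 2 + X ^ 4 * b) - ρ, by ring⟩
    obtain ⟨γ', e4⟩ : ∃ γ, t * (X ^ 2 - 2 * (X ^ 2) ^ 2 - (X ^ 2) ^ 3 + (X ^ 2) ^ 4 * b) -
        1 * (-X - 2 * (-X) ^ 2 - (-X) ^ 3 + (-X) ^ 4 * d) =
        X * (1 + (t + 2) * X - X ^ 2 + X ^ 3 * γ) :=
      ⟨t * (-2 - X ^ 2 + X ^ 4 * b) - d, by ring⟩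
    obtain ⟨δ, e5⟩ : ∃ δ, (-1 + (t + 2) * X + X ^ 2 + X ^ 3 * γ) *
        (1 + (t + 2) * X - X ^ 2 + X ^ 3 * γ') = -1 + (t ^ 2 + 4 * t + 6) * X ^ 2 + X ^ 3 * δ :=
      ⟨(t + 2) * X * (γ + γ') + X ^ 3 * γ * γ' + (γ - γ') * (1 - X ^ 2) - X, by ring⟩
    rw [e1, e3, e4, mul_mul_mul_comm X, e5]
    exact ⟨t * δ - η - (2 * t + 4) * (t ^ 2 + 4 * t + 6) * X +
      X ^ 2 * ((t ^ 2 + 4 * t + 6) * η - (2 * t + 4) * δ) + X ^ 3 * η * δ, by ring⟩
  have hc : ∀ i < 4, coeff i c = coeff i (C (-T) * X ^ 2 + C (T ^ 3 + 4 * T ^ 2 + 8 * T + 4) * X ^ 3 :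
      PowerSeries ℂ) := fun i hi => by
    have := congrArg (coeff (2 * i)) hS
    rw [coeff_expand_mul] at this
    rw [this]
    generalize T ^ 3 + 4 * T ^ 2 + 8 * T + 4 = k
    generalize -T = u
    interval_cases i <;> simp only [map_add, coeff_C_mul, coeff_X_pow, coeff_X_pow_mul'] <;> simp
  obtain ⟨c', hc'⟩ : X ^ 4 ∣ c - (C (-T) * X ^ 2 + C (T ^ 3 + 4 * T ^ 2 + 8 * T + 4) * X ^ 3) :=
    X_pow_dvd_iff.2 fun i hi => by rw [map_sub, hc i hi, sub_self]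
  obtain rfl : c = X * (X * (C (-T) + C (T ^ 3 + 4 * T ^ 2 + 8 * T + 4) * X + X ^ 2 * c')) := by
    linear_combination hc'
  have h7 := hq_divX (F := fun τ => R τ * Hh τ ^ 3 / X.qq 1 τ ^ 2) (hq_divX
    (F := fun τ => X.qq 1 τ * (R τ * Hh τ ^ 3 / X.qq 1 τ ^ 2)) (hq_congr h5 fun τ => by
      have := qq_ne 1 τ
      field_simp))
  obtain ⟨ψ, p1, p2⟩ := ex_iH3
  obtain ⟨η, n1, n2⟩ := ex_hm
  have h8 := hq_add (HQ_mul h7 p1) (hq_smul T n1)
  obtain ⟨k, hk⟩ : ∃ k, T ^ 3 + 4 * T ^ 2 + 8 * T + 4 = k := ⟨_, rfl⟩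
  rw [hk] at h8
  have a := p2 0 (by norm_num)
  have a' := p2 1 (by norm_num)
  have b := n2 0 (by norm_num)
  have b' := n2 1 (by norm_num)
  simp only [List.getD_cons_zero, List.getD_cons_succ] at a a' b b'
  obtain ⟨d, hd⟩ : X ∣ (C (-T) + C k * X + X ^ 2 * c') *
      ψ.map (algebraMap ℚ ℂ) + C T * η.map (algebraMap ℚ ℂ) := X_dvd_iff.2 (by
    rw [← coeff_zero_eq_constantCoeff_apply, add_mul, add_mul, mul_assoc, mul_assoc, pow_two X,
      mul_assoc X X]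
    simp only [map_add, coeff_C_mul, coeff_zero_X_mul, coeff_map, a, b]
    simp)
  have h9 : coeff 0 d = T ^ 3 + 4 * T ^ 2 + 2 * T + 4 := by
    have := congrArg (coeff (0 + 1)) hd
    rw [coeff_succ_X_mul, add_mul, add_mul, mul_assoc, mul_assoc, pow_two X, mul_assoc X X] at this
    simp only [map_add, coeff_C_mul, coeff_succ_X_mul, coeff_zero_X_mul, coeff_map] at this
    rw [zero_add, a, a', b'] at this
    rw [← this, ← hk]
    simp
    ring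
  rw [hd] at h8
  have h10 := hq_divX (F := fun τ => R τ + T * hm τ) (hq_congr h8 fun τ => by
    have := qq_ne 1 τ
    have := Hh_ne τ
    field_simp)
  obtain ⟨κ, hκ⟩ := liou _ (hq_hol one_pos h10) (fun γ hγ τ => by rw [h1 γ hγ, inv_hm γ hγ])
    (hq_bdd one_pos h10) (by simpa only [h2, hm_ww] using hq_bdd one_pos h10)
  have h12 := hq_tendsto one_pos h10
  rw [funext hκ, h9] at h12
  have := hκ τ
  rw [tendsto_nhds_unique tendsto_const_nhds h12] at this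
  linear_combination this

theorem vieta {a b c A : ℂ} (h : ∀ T : ℂ, (T - a) * ((T - b) * (T - c)) =
    T ^ 3 + 4 * T ^ 2 - A * T + 4) :
    a + b + c = -4 ∧ a * b + a * c + b * c = -A ∧ a * b * c = -4 :=
  ⟨by linear_combination h 0 - h 1 / 2 - h (-1) / 2, by linear_combination h 1 / 2 - h (-1) / 2,
    by linear_combination -h 0⟩

theorem hecke_two (hU : UnifStmt) (τ : ℍ) : ∑ i, phi (nz 2 τ i) = -(2 • phi τ) := by
  have ha : ∀ τ, ∑ i, (2 : ℕ) / nc 2 i ^ 2 * Hh (nz 2 τ i) = (-2 : ℤ) * Hh τ := fun τ => by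
    have h := (vieta fun T => by
      simpa only [Fintype.prod_option, Fin.prod_univ_two] using cubic T τ).1
    have := Hh_ne τ
    simp only [Fintype.sum_option, Fin.sum_univ_two]
    field_simp at h
    push_cast
    have := nc_ne two_ne_zero (none : Option (Fin 2))
    have := nc_ne two_ne_zero (some 0 : Option (Fin 2))
    have := nc_ne two_ne_zero (some 1 : Option (Fin 2))
    field_simp at h ⊢
    linear_combination h
  obtain ⟨W, ω, h1, h2, h3⟩ := exists_int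
  have h4 : Tendsto W atImInfty (𝓝 0) := h3 ▸ hq_tendsto one_pos h2
  obtain ⟨u, hu⟩ := unif hU h1 h4
  obtain ⟨c, hc⟩ := ((HD.sum Finset.univ fun i => h1.comp (hd_nz two_ne_zero i)).add
    (h1.smul (-(-2 : ℤ)))).const fun τ => by
      rw [neg_mul, mul_left_comm, ← ha, Finset.mul_sum, add_neg_eq_zero]
      exact Finset.sum_congr rfl fun i _ => by ring
  have h5 := (tendsto_finsetSum Finset.univ fun i _ =>
    hq_tendsto (pos_of two_ne_zero) (hq_nz two_ne_zero h2 i)).add (h4.const_mul (-((-2 : ℤ) : ℂ)))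
  simp only [hc, coeff_zero_ns, h3, Finset.sum_const_zero, mul_zero, add_zero] at h5
  obtain rfl := tendsto_nhds_unique tendsto_const_nhds h5
  simp only [hu]
  rw [← map_sum, ← map_nsmul, ← map_neg]
  congr 1
  have := hc τ
  push_cast at this
  rw [nsmul_eq_mul]
  push_cast
  linear_combination this

/-- `A` is the value at `P` of the Hauptmodul of the Fricke group, shifted by two. -/
def Ac (P : Pt) (A : ℂ) : Prop :=
  (A = -8 ∧ P = 3 • t0) ∨ (P - 3 • t0 ≠ 0 ∧ (xc (P - 3 • t0) - 20) * (A + 8) = -44)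

theorem ac_phi (τ : ℍ) : Ac (phi τ) (hm τ - 2) := by
  obtain ⟨p0, p1, p2⟩ := phi_spec τ
  have hq := quad τ
  have hy := YY_eq τ
  rw [XX] at p1 hy
  by_cases h : hm τ + 6 = 0
  · have e : hm τ = -6 := by linear_combination h
    rw [e] at hq hy
    have e1 : xf τ = 5 := sub_eq_zero.1 (pow_eq_zero_iff two_ne_zero |>.1 (by linear_combination hq))
    refine Or.inl ⟨by rw [e]; norm_num, pt_ext p0 three_spec.1 ?_ ?_⟩
    · rw [p1, three_spec.2.1, e1]; norm_num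
    · rw [p2, three_spec.2.2, hy, e1]; norm_num
  · have e : phi τ - 3 • t0 = phi τ + 2 • t0 := by
      rw [sub_eq_iff_eq_add, add_assoc, ← add_nsmul, five, add_zero]
    obtain ⟨a0, a1, a2⟩ := two_spec
    obtain ⟨c0, c1, -⟩ := add_spec p0 a0 (m := 10 + 2 * (xf τ - 5) / (hm τ + 6))
      (by rw [p1, p2, a1, a2, hy]; field_simp; linear_combination -8 * hq) fun k => by
        rw [a1, p1] at k
        have e1 : xf τ = 5 := by linear_combination k / 4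
        rw [e1] at hq
        have e2 : hm τ = -7 := by
          have : (hm τ + 6) * (hm τ + 7) = 0 := by linear_combination hq / 11
          linear_combination (mul_eq_zero.1 this).resolve_left h
        rw [p1, p2, hy, e1, e2]
        norm_num
    refine Or.inr ⟨e ▸ c0, ?_⟩
    rw [e, c1, p1, a1]
    field_simp
    linear_combination 4 * (hm τ + 6) * hq

/-- The value of the shifted Hauptmodul at a neighbour. -/
def av (v : ℂ) : ℂ := v + 16 / v + 16 / v ^ 2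

theorem av_nz (τ : ℍ) (i : Option (Fin 2)) :
    hm (nz 2 τ i) - 2 = av (4 / nc 2 i ^ 2 * Hh (nz 2 τ i) / Hh τ) := by
  have hl := Nat.prime_two
  have h11 : 2 ≠ 11 := by norm_num
  have h := pr_one τ
  have h0 : ((2 : ℕ) : ℂ) ≠ 0 := by norm_num
  have hn := (nb_iff hl h).2 ⟨i, rfl⟩
  have h1 := h.nb hl h11 i
  obtain ⟨j, hj⟩ := (nb_iff hl h1).1 ⟨(smul_lt_iff h0).2 hn.2, hn.1⟩
  have h2 := h1.nb hl h11 j
  rw [← hj, ← Submodule.smul_sup', ← sup_assoc, sup_eq_left.2 hn.2.le,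
    sup_eq hl h11 h.le.1 h.le.2] at h2
  obtain ⟨δ, h3, h4, h5⟩ := (h.scale h0).eq h2
  have h6 := cubic (4 / nc 2 j ^ 2 * Hh (nz 2 (nz 2 τ i) j) / Hh (nz 2 τ i)) (nz 2 τ i)
  rw [Finset.prod_eq_zero (Finset.mem_univ j) (sub_self _), h4, Hh_smul h3,
    show fa δ τ = nc 2 i * nc 2 j / 2 by push_cast at h5; linear_combination -h5 / 2] at h6
  have := nc_ne two_ne_zero i
  have := nc_ne two_ne_zero j
  have := Hh_ne τ
  have := Hh_ne (nz 2 τ i)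
  rw [av]
  generalize hm (nz 2 τ i) = A at h6 ⊢
  generalize Hh (nz 2 τ i) = B at *
  generalize Hh τ = C at *
  generalize nc 2 i = x at *
  generalize nc 2 j = y at *
  field_simp at h6 ⊢
  linear_combination h6 / 4

/-- The three neighbours of a point under the Hecke correspondence of level two. -/
def Tri (P P₁ P₂ P₃ : Pt) : Prop := P₁ + P₂ + P₃ = -(2 • P) ∧ ∃ A v₁ v₂ v₃ : ℂ, Ac P A ∧
  v₁ + v₂ + v₃ = -4 ∧ v₁ * v₂ + v₁ * v₃ + v₂ * v₃ = -A ∧ v₁ * v₂ * v₃ = -4 ∧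
  Ac P₁ (av v₁) ∧ Ac P₂ (av v₂) ∧ Ac P₃ (av v₃)

theorem tri (hU : UnifStmt) {L M L₁ L₂ L₃ : Submodule ℤ ℂ} (h : Lv L M) (n₁ : Nb 2 L L₁)
    (n₂ : Nb 2 L L₂) (n₃ : Nb 2 L L₃) (d₁ : L₁ ≠ L₂) (d₂ : L₁ ≠ L₃) (d₃ : L₂ ≠ L₃) :
    Tri (Pp L M) (Pp L₁ (L₁ ⊔ ((2 : ℕ) : ℂ) • M)) (Pp L₂ (L₂ ⊔ ((2 : ℕ) : ℂ) • M))
      (Pp L₃ (L₃ ⊔ ((2 : ℕ) : ℂ) • M)) ∧ ∀ L', Nb 2 L L' → L' = L₁ ∨ L' = L₂ ∨ L' = L₃ := by
  have hl := Nat.prime_two
  have h11 : 2 ≠ 11 := by norm_num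
  obtain ⟨c, z, k⟩ := lv_pr h
  obtain ⟨i₁, rfl⟩ := (nb_iff hl k).1 n₁
  obtain ⟨i₂, rfl⟩ := (nb_iff hl k).1 n₂
  obtain ⟨i₃, rfl⟩ := (nb_iff hl k).1 n₃
  have e₁ : i₁ ≠ i₂ := fun e => d₁ (by rw [e])
  have e₂ : i₁ ≠ i₃ := fun e => d₂ (by rw [e])
  have e₃ : i₂ ≠ i₃ := fun e => d₃ (by rw [e])
  have u : (Finset.univ : Finset (Option (Fin 2))) = {i₁, i₂, i₃} :=
    (by decide : ∀ a b c : Option (Fin 2), a ≠ b → a ≠ c → b ≠ c → Finset.univ = {a, b, c})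
      _ _ _ e₁ e₂ e₃
  refine ⟨?_, fun L' n => ?_⟩
  · rw [(k.nb hl h11 i₁).pp, (k.nb hl h11 i₂).pp, (k.nb hl h11 i₃).pp, k.pp]
    have s := hecke_two hU z
    have t := fun T => cubic T z
    simp only [u, Finset.sum_insert, Finset.prod_insert, Finset.mem_insert, Finset.mem_singleton,
      e₁, e₂, e₃, or_self, not_false_eq_true, Finset.sum_singleton, Finset.prod_singleton] at s t
    obtain ⟨a, b, d⟩ := vieta t
    exact ⟨by rw [add_assoc, s], _, _, _, _, ac_phi z, a, b, d, av_nz z i₁ ▸ ac_phi _,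
      av_nz z i₂ ▸ ac_phi _, av_nz z i₃ ▸ ac_phi _⟩
  · obtain ⟨i, rfl⟩ := (nb_iff hl k).1 n
    have := Finset.mem_univ i
    simp only [u, Finset.mem_insert, Finset.mem_singleton] at this
    rcases this with rfl | rfl | rfl <;> simp

end Pool.Agent.Lib.MP_d6ddbd_nt.E11
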