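import Pool.Agent.Lib.MP_d6ddbd_nt.KB.A
import Pool.Agent.Lib.MP_d6ddbd_nt.KI.Asw

/-! The linear algebra with an undetected vector at an arbitrary core vertex. -/

set_option autoImplicit false

namespace Pool.Agent.Lib.MP_d6ddbd_nt.K11.Asw

open Module

variable {W U P : Type} [AddCommGroup W] [Module (ZMod 2) W] [AddCommGroup U] [Module (ZMod 2) U]

theorem swapB [Module.Finite (ZMod 2) U] [DecidableEq P] (n₀ : Finset P)
    (β : U →ₗ[ZMod 2] U →ₗ[ZMod 2] ZMod 2) (a b : W →ₗ[ZMod 2] U)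
    (s f : P → W →ₗ[ZMod 2] ZMod 2) (sq fq a₁ b₁ : W →ₗ[ZMod 2] ZMod 2) (w₀ : W) (M : ℕ)
    (κ : Finset P → ℕ → W)
    (h1 : ∀ x, {p | s p x ≠ 0}.Finite)
    (h2 : ∀ x y (B : Finset P), (∀ p ∉ B, s p x = 0 ∧ s p y = 0) → β (a x) (b y) + β (b x) (a y) +
      (a₁ x * b₁ y + b₁ x * a₁ y) +
      (sq x * fq y + fq x * sq y) + ∑ p ∈ B, (s p x * f p y + f p x * s p y) = 0)
    (h3 : ∀ n : Finset P,
      Module.Finite (ZMod 2) (⨅ p ∉ n, LinearMap.ker (s p) : Submodule (ZMod 2) W) ∧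
      finrank (ZMod 2) U + 2 + n.card ≤
        finrank (ZMod 2) (⨅ p ∉ n, LinearMap.ker (s p) : Submodule (ZMod 2) W))
    (hw : a₁ w₀ = 1 ∧ b₁ w₀ = 0 ∧ fq w₀ = 1)
    (h4 : ∀ (T : Finset W) (lam : W →ₗ[ZMod 2] ZMod 2) (B : Finset P), lam w₀ = 0 →
      ∃ p ∉ B, ∀ x ∈ T, f p x = lam x)
    (h5 : ∀ x, (∀ p ∉ n₀, s p x = 0) → (∀ p ∈ n₀, f p x = 0) → sq x = 0 → fq x = 0 → b x = 0 →
      b₁ x = 0 → x = 0)
    (h6 : M ≤ finrank (ZMod 2) U + 2) (h7 : ∀ n j, M < j → κ n j = 0) (h8 : ∃ n j, κ n j ≠ 0)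
    (h9 : ∀ n, b (κ n 0) = 0) (k1 : ∀ n j, a (κ n j) = b (κ n (j + 1)))
    (k0 : ∀ n, b₁ (κ n 0) = 0 ∧ b₁ (κ n 1) = a₁ (κ n 0) ∧
      ∀ j, b₁ (κ n (j + 2)) = a₁ (κ n (j + 1)) + a₁ (κ n j))
    (k2 : ∀ n j, ∀ p ∉ n, s p (κ n j) = 0) (k3 : ∀ n j, ∀ p ∈ n, f p (κ n j) = 0)
    (k4 : ∀ n j, ∀ p ∉ n, s p (κ (insert p n) j) = f p (κ n j)) :
    M = finrank (ZMod 2) U + 2 ∧ κ n₀ 0 ≠ 0 := by
  have key := ab_thm W U P β a b (fun p => if p ∈ n₀ then f p else s p)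
    (fun p => if p ∈ n₀ then s p else f p) sq fq a₁ b₁ w₀ M (fun n => κ (symmDiff n₀ n)) (fun x => ?_)
    (fun x y B h => ?_) (fun n => ?_) hw (fun T lam B h0 => ?_) (fun x h => ?_) h6 (fun n => h7 _) ?_
    (fun n => h9 _) (fun n => k1 _) (fun n => k0 _) (fun n j p hp => ?_) (fun n j p hp => ?_) fun n j p hp => ?_
  · rwa [show symmDiff n₀ ∅ = n₀ from symmDiff_bot n₀] at key
  · refine ((h1 x).union n₀.finite_toSet).subset fun p hp => or_iff_not_imp_right.2 fun e => ?_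
    simpa [show p ∉ n₀ from e] using hp
  · rw [← h2 x y (B ∪ n₀) fun p hp => by
      rw [Finset.notMem_union] at hp
      simpa [hp.2] using h p hp.1, ← Finset.sum_subset Finset.subset_union_left fun p hp e => by
      have := h p e
      simp only [(Finset.mem_union.1 hp).resolve_left e, if_true] at this
      simp [this.1, this.2]]
    refine congrArg _ (Finset.sum_congr rfl fun p _ => ?_)
    split_ifs
    · exact add_comm _ _
    · rfl
  · obtain ⟨i, e⟩ := h3 (n ∪ n₀)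
    have := cut (⨅ p ∉ n ∪ n₀, LinearMap.ker (s p))
      (⨅ p ∉ n, LinearMap.ker (if p ∈ n₀ then f p else s p)) (n₀ \ n) f (fun x hx => ?_)
      fun x hx h => ?_
    · refine ⟨this.1, ?_⟩
      have e' := Finset.card_sdiff_add_card n₀ n
      rw [Finset.union_comm] at e'
      omega
    · simp only [Submodule.mem_iInf, Finset.notMem_union] at hx ⊢
      exact fun p hp => by simpa [hp.2] using hx p hp.1
    · simp only [Submodule.mem_iInf, Finset.notMem_union] at hx ⊢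
      intro p hp
      split_ifs with e
      exacts [h p (Finset.mem_sdiff.2 ⟨e, hp⟩), hx p ⟨hp, e⟩]
  · obtain ⟨p, hp, e⟩ := h4 T lam (B ∪ n₀) h0
    rw [Finset.notMem_union] at hp
    exact ⟨p, hp.1, by simpa [hp.2] using e⟩
  · exact h5 x (fun p hp => by simpa [hp] using h p) fun p hp => by simpa [hp] using h p
  · obtain ⟨n, j, h⟩ := h8
    exact ⟨symmDiff n₀ n, j, by rwa [symmDiff_symmDiff_cancel_left]⟩
  · split_ifs with e
    exacts [k3 _ j p (by simp [Finset.mem_symmDiff, e, hp]),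
      k2 _ j p (by simp [Finset.mem_symmDiff, e, hp])]
  · split_ifs with e
    exacts [k2 _ j p (by simp [Finset.mem_symmDiff, e, hp]),
      k3 _ j p (by simp [Finset.mem_symmDiff, e, hp])]
  · split_ifs with e
    · rw [← k4 _ j p (by simp [Finset.mem_symmDiff, e])]
      congr 2
      ext i
      by_cases h : i = p <;> simp [Finset.mem_symmDiff, e, hp, h]
    · rw [← k4 _ j p (by simp [Finset.mem_symmDiff, e, hp])]
      congr 2
      ext i
      by_cases h : i = p <;> simp [Finset.mem_symmDiff, e, hp, h]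

end Pool.Agent.Lib.MP_d6ddbd_nt.K11.Asw
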