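import Pool.Agent.Lib.MP_d6ddbd_nt.KB.A4

/-!
The linear algebra with one more place, where the relation has degree two, and a vector that is
not detected by the primes.
-/

namespace Pool.Agent.Lib.MP_d6ddbd_nt.K11

open Finset Filter Module
open LA hiding Sys Dat

def ABStmt : Prop := ∀ (W U P : Type) [AddCommGroup W] [Module (ZMod 2) W] [AddCommGroup U]
  [Module (ZMod 2) U] [Module.Finite (ZMod 2) U] [DecidableEq P]
  (β : U →ₗ[ZMod 2] U →ₗ[ZMod 2] ZMod 2) (a b : W →ₗ[ZMod 2] U)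
  (s f : P → W →ₗ[ZMod 2] ZMod 2) (sq fq a₁ b₁ : W →ₗ[ZMod 2] ZMod 2) (w₀ : W) (M : ℕ)
  (κ : Finset P → ℕ → W),
  (∀ x, {p | s p x ≠ 0}.Finite) →
  (∀ x y (B : Finset P), (∀ p ∉ B, s p x = 0 ∧ s p y = 0) → β (a x) (b y) + β (b x) (a y) +
    (a₁ x * b₁ y + b₁ x * a₁ y) +
    (sq x * fq y + fq x * sq y) + ∑ p ∈ B, (s p x * f p y + f p x * s p y) = 0) →
  (∀ n : Finset P, Module.Finite (ZMod 2) (⨅ p ∉ n, LinearMap.ker (s p) : Submodule (ZMod 2) W) ∧
    Module.finrank (ZMod 2) U + 2 + n.card ≤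
      Module.finrank (ZMod 2) (⨅ p ∉ n, LinearMap.ker (s p) : Submodule (ZMod 2) W)) →
  (a₁ w₀ = 1 ∧ b₁ w₀ = 0 ∧ fq w₀ = 1) →
  (∀ (T : Finset W) (lam : W →ₗ[ZMod 2] ZMod 2) (B : Finset P), lam w₀ = 0 →
    ∃ p ∉ B, ∀ x ∈ T, f p x = lam x) →
  (∀ x, (∀ p, s p x = 0) → sq x = 0 → fq x = 0 → b x = 0 → b₁ x = 0 → x = 0) →
  M ≤ Module.finrank (ZMod 2) U + 2 → (∀ n j, M < j → κ n j = 0) → (∃ n j, κ n j ≠ 0) →
  (∀ n, b (κ n 0) = 0) → (∀ n j, a (κ n j) = b (κ n (j + 1))) →
  (∀ n, b₁ (κ n 0) = 0 ∧ b₁ (κ n 1) = a₁ (κ n 0) ∧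
    ∀ j, b₁ (κ n (j + 2)) = a₁ (κ n (j + 1)) + a₁ (κ n j)) →
  (∀ n j, ∀ p ∉ n, s p (κ n j) = 0) → (∀ n j, ∀ p ∈ n, f p (κ n j) = 0) →
  (∀ n j, ∀ p ∉ n, s p (κ (insert p n) j) = f p (κ n j)) →
  M = Module.finrank (ZMod 2) U + 2 ∧ κ ∅ 0 ≠ 0

theorem ab_thm : ABStmt := by
  intro W U P _ _ _ _ _ _ β a b s f sq fq a₁ b₁ w₀ M κ h1 h2 h3 hw h4 h5 h6 h7 h8 h9 h10 hb h11
    h12 h13
  have two : (2 : ZMod 2) = 0 := rfl
  let B := Module.finBasis (ZMod 2) U
  have hβ : ∀ u v, β u v = ∑ i, ∑ j, β (B i) (B j) • (B.coord i u * B.coord j v) := fun u v => by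
    conv_lhs => rw [← B.sum_repr u, ← B.sum_repr v]
    simp only [map_sum, map_smul, LinearMap.sum_apply, LinearMap.smul_apply, smul_eq_mul, mul_sum,
      Basis.coord_apply]
    rw [sum_comm]
    exact sum_congr rfl fun i _ => sum_congr rfl fun j _ => by ring
  let F := LinearMap.fst (ZMod 2) W (ZMod 2)
  let S := LinearMap.snd (ZMod 2) W (ZMod 2)
  have hZ : ∀ m, Zs (fun p => (s p).comp F) m =
      (⨅ p ∉ m, LinearMap.ker (s p) : Submodule (ZMod 2) W).prod ⊤ := fun m => by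
    ext x
    simp [mem_Zs, F]
  have hE : ∀ V : Submodule (ZMod 2) W, Nonempty (V.prod (⊤ : Submodule (ZMod 2) (ZMod 2))
      ≃ₗ[ZMod 2] V × ZMod 2) := fun V =>
    ⟨{ toFun := fun x => (⟨x.1.1, x.2.1⟩, x.1.2)
       invFun := fun x => ⟨(x.1.1, x.2), x.1.2, trivial⟩
       map_add' := fun _ _ => rfl
       map_smul' := fun _ _ => rfl
       left_inv := fun _ => rfl
       right_inv := fun _ => rfl }⟩
  let D : LB.Dat (W × ZMod 2) (Fin (finrank (ZMod 2) U) ⊕ Bool) P :=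
    { s p := (s p).comp F, f p := (f p).comp F, sq := sq.comp F, fq := fq.comp F
      a := Sum.elim (fun i => ((B.coord i).comp a).comp F) fun i =>
        cond i (a₁.comp F) (S + a₁.comp F)
      b := Sum.elim (fun i => ((B.coord i).comp b).comp F) fun i => cond i S (b₁.comp F)
      β := Sum.elim (fun i => Sum.elim (fun j => β (B i) (B j)) 0) fun i =>
        Sum.elim 0 fun j => cond (i || j) 1 0
      recip x y := by
        filter_upwards [eventually_ge_atTop ((h1 x.1).toFinset ∪ (h1 y.1).toFinset)] with T hT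
        refine Eq.trans ?_ (h2 x.1 y.1 T fun p hp => by simpa using mt (@hT p) hp)
        rw [hβ, hβ (b x.1)]
        simp [F, S, sum_add_distrib, mul_add]
        linear_combination (a₁ x.1 * y.2 + x.2 * a₁ y.1 + x.2 * y.2) * two
      fin m := by
        have := (h3 m).1
        obtain ⟨e⟩ := hE (⨅ p ∉ m, LinearMap.ker (s p))
        rw [hZ]
        exact Module.Finite.equiv e.symm
      dim m := by
        have := (h3 m).1
        have := (h3 m).2
        obtain ⟨e⟩ := hE (⨅ p ∉ m, LinearMap.ker (s p))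
        rw [hZ, e.finrank_eq, finrank_prod, finrank_self]
        simp
        omega
      v i := cond i (w₀, 0) (0, 1)
      i1 := .inr true
      i2 := .inr false
      hv := by simp [F, S, hw.1, hw.2.1, hw.2.2]
      cheb x y hx hy m := by
        classical
        have key : ∀ x : W × ZMod 2, x ∉ Submodule.span (ZMod 2)
            (Set.range fun i : Bool => cond i (w₀, (0 : ZMod 2)) (0, 1)) →
            ∃ l : Dual (ZMod 2) W, l w₀ = 0 ∧ l x.1 ≠ 0 := fun x hx => by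
          obtain ⟨l, e1, e2⟩ := Submodule.exists_dual_map_eq_bot_of_notMem
            (p := Submodule.span (ZMod 2) {w₀}) (x := x.1) (fun h => by
              obtain ⟨c, hc⟩ := Submodule.mem_span_singleton.1 h
              exact hx ((Submodule.mem_span_range_iff_exists_fun _).2
                ⟨fun i => cond i c x.2, by simp [hc]⟩)) inferInstance
          exact ⟨l, e2.le (Submodule.mem_map_of_mem (Submodule.mem_span_singleton_self _)), e1⟩
        obtain ⟨l, h0, hl⟩ : ∃ l : Dual (ZMod 2) W, l w₀ = 0 ∧ l x.1 ≠ 0 ∧ l y.1 ≠ 0 := by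
          obtain ⟨l, e, hl⟩ := key x hx
          obtain ⟨l', e', hl'⟩ := key y hy
          by_contra! h
          exact hl' (by simpa [h l e hl] using h (l + l') (by simp [e, e']) (by
            simpa [not_not.1 (mt (h l' e') hl')] using hl))
        obtain ⟨p, hp, e⟩ := h4 {x.1, y.1} l m h0
        exact ⟨p, hp, (e x.1 (by simp)).trans_ne hl.1, (e y.1 (by simp)).trans_ne hl.2⟩ }
  obtain ⟨u, hu⟩ := LA.Dat.ex_u
  have := D.main0 hu (fun n j => (κ n j, Nat.rec 0 (fun j _ => a₁ (κ n j)) j)) M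
    (by simpa using h6) (fun n j hj => by
      obtain ⟨j, rfl⟩ := Nat.exists_eq_add_one_of_ne_zero (by omega : j ≠ 0)
      have := (hb n).2.2 j
      rw [h7 n _ (by omega), h7 n _ hj] at this
      exact Prod.ext (h7 n _ hj) (by simpa using this.symm))
    (by rintro n (i | _ | _) <;> simp [D, F, S, h9, (hb n).1])
    (by
      rintro n j (i | _ | _)
      · simp [D, F, h10]
      · cases j
        · simp [D, F, S, (hb n).2.1]
        · exact (add_comm _ _).trans ((hb n).2.2 _).symm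
      · simp [D, F, S])
    (fun n j p => by
      unfold LB.Dat.g
      split_ifs with h
      exacts [h12 n j p h, h11 n j p h]) h13
    (by obtain ⟨n, j, e⟩ := h8; exact ⟨n, j, fun h => e (congrArg Prod.fst h)⟩)
    fun w e1 e2 e3 e4 => Prod.ext (h5 w.1 e1 e3 e4
      (B.ext_elem fun i => by simpa [D, F] using e2 (.inl i)) (e2 (.inr false))) (e2 (.inr true))
  exact ⟨by simpa using this.1, fun h => this.2 (Prod.ext h rfl)⟩

end Pool.Agent.Lib.MP_d6ddbd_nt.K11
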