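import Pool.Agent.Lib.MP_d6ddbd_nt.K11.A4

/-!
Systems of local conditions in which some vectors are not detected by the primes.
-/

namespace Pool.Agent.Lib.MP_d6ddbd_nt.K11.LB

open Finset Filter Module
open LA (Zs mem_Zs big0 tg mem_tg tg_tg)

variable {k X P : Type} [Field k] [AddCommGroup X] [Module k X] [DecidableEq P]

/-- Local conditions with reciprocity, a lower bound for the dimension and enough primes. -/
structure Sys (k X P : Type) [Field k] [AddCommGroup X] [Module k X] where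
  s : P → X →ₗ[k] k
  f : P → X →ₗ[k] k
  sq : X →ₗ[k] k
  fq : X →ₗ[k] k
  recip : ∀ x y, ∀ᶠ S : Finset P in atTop,
    ∑ p ∈ S, (s p x * f p y + f p x * s p y) + (sq x * fq y - fq x * sq y) = 0
  fin : ∀ m, FiniteDimensional k (Zs s m)
  dim : ∀ m : Finset P, #m + 1 ≤ finrank k (Zs s m)
  cheb : ∀ y, y ≠ 0 → sq y = 0 → fq y = 0 → ∀ m : Finset P, ∃ p, p ∉ m ∧ f p y ≠ 0

namespace Sys

variable (A : Sys k X P)

/-- All pairs of vectors are detected. -/
def Full : Prop :=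
  ∀ x y, x ≠ 0 → y ≠ 0 → ∀ m : Finset P, ∃ p, p ∉ m ∧ A.f p x ≠ 0 ∧ A.f p y ≠ 0

/-- The condition at `p`. -/
def g (n : Finset P) (p : P) : X →ₗ[k] k := if p ∈ n then A.f p else A.s p

/-- The functional that is dual to the condition at `p`. -/
def h (n : Finset P) (p : P) : X →ₗ[k] k := if p ∈ n then A.s p else A.f p

/-- All conditions outside `T` hold. -/
def Rl (n T : Finset P) (x : X) : Prop := ∀ p, p ∉ T → A.g n p x = 0

/-- All conditions hold. -/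
def In (n : Finset P) (x : X) : Prop := ∀ p, A.g n p x = 0

/-- Core vertices. -/
def Core (n : Finset P) : Prop := ∀ y, A.In n y → A.sq y = 0 → A.fq y = 0 → y = 0

theorem g_tg (n : Finset P) (p : P) : A.g (tg n p) p = A.h n p := by
  by_cases e : p ∈ n <;> simp [g, h, mem_tg, e]

theorem h_tg (n : Finset P) (p : P) : A.h (tg n p) p = A.g n p := by
  by_cases e : p ∈ n <;> simp [g, h, mem_tg, e]

theorem g_ne (n : Finset P) {p r : P} (e : r ≠ p) : A.g (tg n p) r = A.g n r := by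
  simp [g, mem_tg, e]

theorem h_ne (n : Finset P) {p r : P} (e : r ≠ p) : A.h (tg n p) r = A.h n r := by
  simp [h, mem_tg, e]

variable {A} {n T : Finset P} {x y c : X} {p : P}

theorem In.rl (e : A.In n x) (T : Finset P) : A.Rl n T x := fun p _ => e p

theorem In.rl_tg (e : A.In (tg n p) x) (hp : p ∈ T) : A.Rl n T x := fun r hr => by
  rw [← A.g_ne n (p := p) (by rintro rfl; exact hr hp)]; exact e r

theorem Rl.in (e : A.Rl n {p} x) (e' : A.g n p x = 0) : A.In n x := fun r => by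
  by_cases h : r = p
  exacts [h ▸ e', e r (by simpa using h)]

theorem rc (hx : A.Rl n T x) (hy : A.Rl n T y) :
    ∑ p ∈ T, (A.g n p x * A.h n p y + A.h n p x * A.g n p y) +
      (A.sq x * A.fq y - A.fq x * A.sq y) = 0 := by
  obtain ⟨S, h1, h2⟩ := ((A.recip x y).and (eventually_ge_atTop T)).exists
  rw [← h1, sum_subset h2 fun p _ hp => by rw [hx p hp, hy p hp]; ring]
  congr 1
  refine sum_congr rfl fun p _ => ?_
  unfold g h
  split_ifs <;> ring

theorem prop (hc : A.Core n) (h1 : A.In n c) (h0 : c ≠ 0)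
    (e : A.sq x * A.fq c - A.fq x * A.sq c = 0) :
    ∃ μ : k, A.sq (x - μ • c) = 0 ∧ A.fq (x - μ • c) = 0 := by
  simp only [map_sub, map_smul, smul_eq_mul]
  by_cases hs : A.sq c = 0
  · have hf : A.fq c ≠ 0 := fun hf => h0 (hc c h1 hs hf)
    refine ⟨A.fq x / A.fq c, ?_, by field_simp; ring⟩
    rw [hs, mul_zero, sub_zero] at e ⊢
    exact (mul_eq_zero.1 e).resolve_right hf
  · exact ⟨A.sq x / A.sq c, by field_simp; ring, by field_simp; linear_combination -e⟩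

theorem line (hc : A.Core n) (h1 : A.In n c) (h0 : c ≠ 0) (hx : A.In n x) : ∃ μ : k, x = μ • c := by
  obtain ⟨μ, e1, e2⟩ := prop hc h1 h0 (by simpa using rc (hx.rl ∅) (h1.rl ∅))
  exact ⟨μ, sub_eq_zero.1 (hc _ (fun p => by simp [hx p, h1 p]) e1 e2)⟩

theorem big (A : Sys k X P) (n T : Finset P) : ∃ Z : Submodule k X, FiniteDimensional k Z ∧
    #T + 1 ≤ finrank k Z ∧ ∀ x, x ∈ Z ↔ A.Rl n T x := big0 A.s A.f 1 A.fin A.dim n T

theorem ex_in (A : Sys k X P) (n : Finset P) : ∃ c, A.In n c ∧ c ≠ 0 := by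
  obtain ⟨Z, h1, h2, h3⟩ := A.big n ∅
  obtain ⟨c, hc, h0⟩ := Z.exists_mem_ne_zero_of_ne_bot (by rintro rfl; simp at h2)
  exact ⟨c, fun p => (h3 c).1 hc p (by simp), h0⟩

theorem kill (hy : A.In n y) (h1 : A.sq y = 0) (h2 : A.fq y = 0) (h0 : A.h n p y ≠ 0)
    (hx : A.In (tg n p) x) : A.g n p x = 0 := by
  have := rc (hx.rl_tg (mem_singleton_self p)) (hy.rl _)
  simpa [hy p, h1, h2, h0] using this

theorem edge (hc : A.Core n) (h1 : A.In n c) (h0 : A.h n p c ≠ 0) : A.Core (tg n p) ∧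
    ∀ x, A.In (tg n p) x → x ≠ 0 → A.g n p x ≠ 0 := by
  refine ⟨fun y hy e1 e2 => hc y ((hy.rl_tg (mem_singleton_self p)).in ?_) e1 e2,
    fun x hx x0 e => ?_⟩
  · have := rc (hy.rl_tg (mem_singleton_self p)) (h1.rl _)
    simpa [h1 p, e1, e2, h0] using this
  · obtain ⟨μ, rfl⟩ := line hc h1 (by rintro rfl; simp at h0)
      ((hx.rl_tg (mem_singleton_self p)).in e)
    have := hx p
    rw [A.g_tg, map_smul, smul_eq_mul, mul_eq_zero] at this
    exact x0 (by rw [this.resolve_right h0, zero_smul])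

theorem ex_core (A : Sys k X P) : ∃ n, A.Core n := by
  have key : ∀ (d : ℕ) (n : Finset P) (Y : Submodule k X), FiniteDimensional k Y →
      finrank k Y = d → (∀ y, y ∈ Y ↔ A.In n y ∧ A.sq y = 0 ∧ A.fq y = 0) → ∃ n, A.Core n := by
    intro d
    induction d using Nat.strong_induction_on with
    | _ d ih =>
      intro n Y h1 h2 h3
      by_cases hc : A.Core n
      · exact ⟨n, hc⟩
      simp only [Core, not_forall] at hc
      obtain ⟨y, e1, e2, e3, e4⟩ := hc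
      obtain ⟨p, hp, e5⟩ := A.cheb y e4 e2 e3 n
      have e6 : A.h n p = A.f p := if_neg hp
      refine ih _ (h2 ▸ Submodule.finrank_lt_finrank_of_lt (s := Y ⊓ LinearMap.ker (A.f p))
        (inf_lt_left.2 fun e => e5 (e ((h3 y).2 ⟨e1, e2, e3⟩)))) (tg n p) _ inferInstance rfl
        fun x => ?_
      rw [Submodule.mem_inf, h3, LinearMap.mem_ker, ← e6, ← A.g_tg]
      refine ⟨fun e => ⟨(In.rl_tg (p := p) (by rw [tg_tg]; exact e.1.1)
        (mem_singleton_self p)).in e.2, e.1.2⟩, fun e => ⟨⟨?_, e.2⟩, e.1 p⟩⟩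
      exact (e.1.rl_tg (mem_singleton_self p)).in (kill e1 e2 e3 (e6 ▸ e5) e.1)
  obtain ⟨Z, h1, -, h3⟩ := A.big ∅ ∅
  refine key _ ∅ (Z ⊓ (LinearMap.ker A.sq ⊓ LinearMap.ker A.fq)) inferInstance rfl fun y => ?_
  simp [h3, Rl, In]

theorem const (hF : A.Full) {α : Type} (ρ : Finset P → α)
    (hρ : ∀ n p c, A.Core n → A.In n c → A.h n p c ≠ 0 → ρ (tg n p) = ρ n) (d : ℕ) :
    ∀ n₁ n₂, #(symmDiff n₁ n₂) = d → A.Core n₁ → A.Core n₂ → ρ n₁ = ρ n₂ := by
  induction d with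
  | zero => intro n₁ n₂ e _ _; rw [symmDiff_eq_bot.1 (card_eq_zero.1 e)]
  | succ d ih =>
    have step : ∀ n₁ n₂ p c, #(symmDiff n₁ n₂) = d + 1 → A.Core n₁ → A.Core n₂ → A.In n₁ c →
        p ∈ symmDiff n₁ n₂ → A.h n₁ p c ≠ 0 → ρ n₁ = ρ n₂ := fun n₁ n₂ p c e c₁ c₂ hc hp h0 => by
      rw [← hρ n₁ p c c₁ hc h0]
      refine ih _ _ ?_ (edge c₁ hc h0).1 c₂
      rw [show symmDiff (tg n₁ p) n₂ = (symmDiff n₁ n₂).erase p from ?_, card_erase_of_mem hp, e]
      · rfl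
      ext r
      rw [mem_symmDiff] at hp
      by_cases h : r = p <;> simp [mem_symmDiff, mem_tg, h]
      tauto
    intro n₁ n₂ e c₁ c₂
    obtain ⟨c, hc, h0⟩ := A.ex_in n₁
    by_cases h1 : ∃ p ∈ symmDiff n₁ n₂, A.h n₁ p c ≠ 0
    · obtain ⟨p, hp, h1⟩ := h1
      exact step _ _ p c e c₁ c₂ hc hp h1
    push Not at h1
    have hc' : A.In n₂ c := fun p => by
      by_cases hp : p ∈ symmDiff n₁ n₂
      · rw [← h1 p hp]
        rcases mem_symmDiff.1 hp with h | h <;> simp [g, Sys.h, h]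
      · rw [← hc p]
        by_cases h : p ∈ n₁ <;> simp_all [g, mem_symmDiff]
    obtain ⟨r, hr⟩ := card_pos.1 (d.succ_pos.trans_eq e.symm)
    obtain ⟨Z, z1, z2, z3⟩ := A.big n₁ {r}
    obtain ⟨a', a1, a2⟩ : ∃ a' ∈ Z, a' ∉ k ∙ c := SetLike.not_le_iff_exists.1 fun h => by
      have := Submodule.finrank_mono h
      rw [finrank_span_singleton h0] at this
      simp at z2
      omega
    rw [z3] at a1
    obtain ⟨μ, a3, a4⟩ := prop (x := a') c₁ hc h0 (by
      simpa [hc r, h1 r hr] using rc a1 (hc.rl _))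
    have a5 : A.Rl n₁ {r} (a' - μ • c) := fun p hp => by simp [a1 p hp, hc p]
    have a6 : a' - μ • c ≠ 0 := fun h =>
      a2 (sub_eq_zero.1 h ▸ Submodule.smul_mem _ _ (Submodule.mem_span_singleton_self c))
    generalize a' - μ • c = a at a3 a4 a5 a6
    obtain ⟨z, hz, f1, f2⟩ := hF c a h0 a6 (n₁ ∪ n₂)
    rw [notMem_union] at hz
    have g1 : A.h n₁ z = A.f z := if_neg hz.1
    have g2 : A.h n₂ z = A.f z := if_neg hz.2
    have rz : r ≠ z := by rintro rfl; simp [mem_symmDiff, hz] at hr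
    obtain ⟨b1, b2⟩ := edge c₁ hc (g1 ▸ f1)
    obtain ⟨cz, b3, b4⟩ := A.ex_in (tg n₁ z)
    have e' : symmDiff (tg n₁ z) (tg n₂ z) = symmDiff n₁ n₂ := by
      ext t
      by_cases h : t = z <;> simp [mem_symmDiff, mem_tg, h, hz]
    rw [← hρ n₁ z c c₁ hc (g1 ▸ f1), ← hρ n₂ z c c₂ hc' (g2 ▸ f1)]
    refine step _ _ r cz (e' ▸ e) b1 (edge c₂ hc' (g2 ▸ f1)).1 b3 (e' ▸ hr) fun h => ?_
    have := rc (T := {r, z}) (fun p hp => a5 p fun h => hp (mem_insert.2 (.inl (mem_singleton.1 h))))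
      (b3.rl_tg (mem_insert_of_mem (mem_singleton_self z)))
    rw [A.h_ne _ rz] at h
    rw [sum_pair rz, h, ← A.g_ne n₁ rz, b3 r, a5 z (by simpa using rz.symm), a3, a4, g1] at this
    exact mul_ne_zero f2 (b2 cz b3 b4) (by simpa using this)

/-- Families with the relation along all edges. -/
def Kol (A : Sys k X P) (κ : Finset P → X) : Prop :=
  (∀ n, A.In n (κ n)) ∧ ∀ n p, A.h n p (κ n) = A.g n p (κ (tg n p))

theorem Kol.core (hF : A.Full) {κ : Finset P → X} (hκ : A.Kol κ) (h0 : κ n ≠ 0) : A.Core n :=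
    fun y e1 e2 e3 => by
  by_contra y0
  obtain ⟨p, hp, f1, f2⟩ := hF y _ y0 h0 n
  have g1 : A.h n p = A.f p := if_neg hp
  exact f2 (by rw [← g1, hκ.2, kill e1 e2 e3 (g1 ▸ f1) (hκ.1 _)])

theorem Kol.rigid (hF : A.Full) {κ Δ : Finset P → X} (hκ : A.Kol κ)
    (h1 : ∀ n, A.Core n → A.In n (Δ n) ∧ Δ n ≠ 0)
    (h2 : ∀ n p, A.Core n → A.Core (tg n p) → A.h n p (Δ n) ≠ 0 → A.g n p (Δ (tg n p)) ≠ 0 →
      A.h n p (Δ n) = A.g n p (Δ (tg n p))) : ∃ ρ : k, ∀ n, A.Core n → κ n = ρ • Δ n := by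
  choose! ρ hρ using fun n hn => line hn (h1 n hn).1 (h1 n hn).2 (hκ.1 n)
  obtain ⟨n₀, h0⟩ := A.ex_core
  refine ⟨ρ n₀, fun n hn => ?_⟩
  rw [← const hF ρ (fun n p c hn hc e => ?_) _ n n₀ rfl hn h0, ← hρ n hn]
  obtain ⟨b1, b2⟩ := edge hn hc e
  have b3 := b2 _ (h1 _ b1).1 (h1 _ b1).2
  obtain ⟨μ, rfl⟩ := line hn (h1 n hn).1 (h1 n hn).2 hc
  have b4 := hκ.2 n p
  rw [hρ n hn, hρ _ b1, map_smul, map_smul, h2 n p hn b1 (fun h => e (by simp [h])) b3] at b4
  exact (mul_right_cancel₀ b3 b4).symm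

end Sys

end Pool.Agent.Lib.MP_d6ddbd_nt.K11.LB
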