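import Pool.Agent.Lib.MP_d6ddbd_nt.KB.A3

/-!
The quotient of a Kolyvagin system by the system of minors has no pole on the projective line.
-/

namespace Pool.Agent.Lib.MP_d6ddbd_nt.K11.LB.Dat

open Finset Filter Module TensorProduct Polynomial
open LA hiding Sys Dat

variable {W ι P : Type} [AddCommGroup W] [Module (ZMod 2) W] [Fintype ι] [DecidableEq P]
  [DecidableEq ι] (D : Dat W ι P) {K : Type} [Field K] [Algebra (ZMod 2) K]

/-- The minor as a polynomial. -/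
noncomputable def Dp (e : Option ι → W) (l : Dual (ZMod 2) W) : (ZMod 2)[X] :=
  (Matrix.of fun (i : Option ι) j =>
    i.elim (C (l (e j))) fun i => X * C (D.a i (e j)) - C (D.b i (e j))).det

omit [DecidableEq P] in
theorem aeval_Dp (e : Option ι → W) (l : Dual (ZMod 2) W) (u : K) :
    aeval u (D.Dp e l) = Dm (D.ψ u 1) (fun j => 1 ⊗ₜ e j) (bc K l) := by
  rw [Dp, AlgHom.map_det]
  refine congrArg Matrix.det ?_
  ext (_ | i) j <;> simp [ψ, Algebra.smul_def, mul_comm u]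

omit [DecidableEq P] in
theorem coeff_Dp (e : Option ι → W) (l : Dual (ZMod 2) W) :
    algebraMap _ K ((D.Dp e l).coeff (Fintype.card ι)) =
      Dm (D.ψ 1 0) (fun j => 1 ⊗ₜ e j) (bc K l) := by
  have h := coeff_det_X_add_C_card (Matrix.of fun (i : Option ι) j => (i.elim l D.a) (e j))
    (Matrix.of fun (i : Option ι) j => i.elim 0 fun i => -D.b i (e j))
  have h' : ∀ M : Matrix (Option ι) (Option ι) (ZMod 2)[X], X * M.det =
      (M.updateRow none ((X : (ZMod 2)[X]) • M none)).det := fun M => by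
    rw [Matrix.det_updateRow_smul, Matrix.updateRow_eq_self]
  rw [Fintype.card_option] at h
  rw [Dp, ← coeff_X_mul, h']
  refine (congrArg _ ((congrArg (fun M => coeff (Matrix.det M) _) ?_).trans h)).trans
    ((RingHom.map_det ..).trans (congrArg Matrix.det ?_))
  · ext (_ | i) j : 2 <;> simp [sub_eq_add_neg]
  · ext (_ | i) j <;> simp [ψ, Algebra.smul_def]

theorem main0 [IsAlgClosed K] {u : K}
    (hu : Function.Injective (aeval u : (ZMod 2)[X] →ₐ[ZMod 2] K)) (κ : Finset P → ℕ → W) (M : ℕ) (hM : M ≤ Fintype.card ι)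
    (k0 : ∀ n j, M < j → κ n j = 0) (k1 : ∀ n i, D.b i (κ n 0) = 0)
    (k2 : ∀ n j i, D.a i (κ n j) = D.b i (κ n (j + 1))) (k3 : ∀ n j p, D.g n p (κ n j) = 0)
    (k4 : ∀ n j p, p ∉ n → D.s p (κ (insert p n) j) = D.f p (κ n j)) (k5 : ∃ n j, κ n j ≠ 0)
    (base : ∀ w, (∀ p, D.s p w = 0) → (∀ i, D.b i w = 0) → D.sq w = 0 → D.fq w = 0 → w = 0) :
    M = Fintype.card ι ∧ κ ∅ 0 ≠ 0 := by
  obtain ⟨v, hv⟩ := D.ex_v
  let Kp : Finset P → Dual (ZMod 2) W → (ZMod 2)[X] := fun n l =>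
    ∑ j ∈ range (M + 1), monomial j (l (κ n j))
  have c0 : ∀ n l j, (Kp n l).coeff j = l (κ n j) := fun n l j => by
    simp only [Kp, finset_sum_coeff, coeff_monomial, sum_ite_eq', mem_range]
    split_ifs with h
    exacts [rfl, by rw [k0 n j (by omega), map_zero]]
  have c1 : ∀ n l, (Kp n l).natDegree ≤ M := fun n l => natDegree_le_iff_coeff_eq_zero.2
    fun j h => by rw [c0, k0 n j h, map_zero]
  let κ' : Finset P → K ⊗[ZMod 2] W := fun n => ∑ j ∈ range (M + 1), (u ^ j) ⊗ₜ κ n j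
  have c2 : ∀ n l, bc K l (κ' n) = aeval u (Kp n l) := fun n l => by
    simp [κ', Kp, Algebra.smul_def]
  have c3 : ∀ n i, X * Kp n (D.a i) = Kp n (D.b i) := fun n i => by
    ext (_ | j) <;> simp [c0, k1, k2, coeff_X_mul]
  obtain ⟨r1, ρ, r2⟩ := D.rig (x₀ := u) (.inr one_ne_zero) hv
    (D.full (fun h => X_ne_zero (hu (by simp [h]))) fun h => (monic_X_add_C (1 : ZMod 2)).ne_zero
      (hu (by simp [h]))) κ'
    (fun n i => by simp [ψ, c2, ← c3]) (fun n p => by simp [κ', k3]) fun n p => by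
      rw [c2, c2]
      refine congrArg _ (Polynomial.ext fun j => ?_)
      rw [c0, c0]
      by_cases h : p ∈ n
      · simpa [g, tg, h, insert_erase h] using k4 (n.erase p) j p (notMem_erase p n)
      · simpa [g, tg, h] using (k4 n j p h).symm
  simp only [c2, ← aeval_Dp] at r2
  obtain ⟨n₀, j₀, e₀⟩ := k5
  obtain ⟨l₁, e₁⟩ := Module.Projective.exists_dual_ne_zero (ZMod 2) e₀
  have e₂ : Kp n₀ l₁ ≠ 0 := fun h => e₁ (by rw [← c0, h, coeff_zero])
  have e₃ := r1 n₀ fun h => e₂ (hu (by rw [← c2, h, map_zero, map_zero]))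
  obtain ⟨-, l₀, -, e₄⟩ := (D.core_iff _ hv _).1 e₃
  rw [← aeval_Dp] at e₄
  obtain ⟨A, B, c, hAB, hA, hB⟩ := UniqueFactorizationMonoid.exists_reduced_factors' (Kp n₀ l₀)
    (D.Dp (v n₀) l₀) fun h => e₄ (by rw [h, map_zero])
  rw [← hB, map_mul] at e₄
  have r3 : ∀ n, (D.sys u 1 (.inr one_ne_zero)).Core n → ∀ l, B * Kp n l = A * D.Dp (v n) l :=
    fun n hn l => hu (by
      have := r2 n₀ e₃ l₀
      rw [← hA, ← hB, map_mul, map_mul, mul_left_comm, mul_right_inj' (left_ne_zero_of_mul e₄)] at this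
      rw [map_mul, map_mul, r2 n hn, this]
      ring)
  have B0 : B ≠ 0 := fun h => right_ne_zero_of_mul e₄ (by rw [h, map_zero])
  have A0 : A ≠ 0 := fun h => mul_ne_zero B0 e₂ (by rw [r3 n₀ e₃, h, zero_mul])
  have r4 : ∀ (x₀ y₀ : K) h n, (D.sys x₀ y₀ h).Core n → (∀ e l, D.Dp e l = 0 →
      Dm (D.ψ x₀ y₀) (fun j => 1 ⊗ₜ e j) (bc K l) = 0) → ∃ l,
        Dm (D.ψ x₀ y₀) (fun j => 1 ⊗ₜ v n j) (bc K l) ≠ 0 ∧ B * Kp n l = A * D.Dp (v n) l :=
    fun x₀ y₀ h n hn hz => by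
      obtain ⟨e1, l, e2, e3⟩ := (D.core_iff _ hv _).1 hn
      exact ⟨l, e3, r3 n ((D.core_iff _ hv _).2 ⟨e1, l, e2, fun e => e3 (hz _ _ (hu (by
        rw [aeval_Dp, e, map_zero])))⟩) l⟩
  have r5 : ∀ (x : K) e l, D.Dp e l = 0 → Dm (D.ψ x 1) (fun j => 1 ⊗ₜ e j) (bc K l) = 0 :=
    fun x e l h => by rw [← aeval_Dp, h, map_zero]
  have B1 : B.natDegree = 0 := by
    by_contra h
    obtain ⟨x, hx⟩ := IsAlgClosed.exists_aeval_eq_zero K B fun e => h (natDegree_eq_of_degree_eq_some e)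
    obtain ⟨n, hn⟩ := (D.sys x 1 (.inr one_ne_zero)).ex_core
    obtain ⟨l, e1, e2⟩ := r4 _ _ _ n hn (r5 x)
    have := congrArg (aeval x) e2
    rw [map_mul, map_mul, hx, zero_mul, aeval_Dp] at this
    exact mul_ne_zero ((aeval_ne_zero_of_isCoprime hAB.isCoprime x).resolve_right
      (not_not.2 hx)) e1 this.symm
  obtain ⟨n, hn⟩ := (D.sys (1 : K) 0 (.inl one_ne_zero)).ex_core
  obtain ⟨l, e1, e2⟩ := r4 _ _ _ n hn fun e l h => by rw [← coeff_Dp, h, coeff_zero, map_zero]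
  rw [← coeff_Dp] at e1
  have e3 : (D.Dp (v n) l).coeff (Fintype.card ι) ≠ 0 := fun h => e1 (by rw [h, map_zero])
  have e4 : D.Dp (v n) l ≠ 0 := fun h => e3 (by rw [h, coeff_zero])
  have e5 := le_natDegree_of_ne_zero e3
  have e6 := congrArg natDegree e2
  have e7 := c1 n l
  rw [natDegree_mul A0 e4, natDegree_mul B0 (right_ne_zero_of_mul (e2 ▸ mul_ne_zero A0 e4))] at e6
  refine ⟨by omega, fun h => ?_⟩
  obtain ⟨l, f1, f2⟩ := r4 0 1 (.inr one_ne_zero) ∅ (fun y y1 y2 y3 => Subtype.ext (by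
    obtain ⟨J, s, t, c, e, h⟩ := coef y.1
    refine e.trans (sum_eq_zero fun i hi => ?_)
    rw [base (c i) (fun p => h _ ((D.g_sys ..).symm.trans (y1 p)) i hi)
      (fun j => h _ (by simpa [ψ] using (mem_Ker _).1 y.2 j) i hi) (h _ y2 i hi) (h _ y3 i hi),
      tmul_zero])) (r5 0)
  have := congrArg (coeff · 0) f2
  simp only [mul_coeff_zero, c0, h, map_zero, mul_zero] at this
  rw [← aeval_Dp, ← coeff_zero_eq_aeval_zero', (mul_eq_zero.1 this.symm).resolve_left fun e =>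
    A0 (by rw [eq_C_of_natDegree_eq_zero (p := A) (by omega), e, C_0]), map_zero] at f1
  exact f1 rfl

end Pool.Agent.Lib.MP_d6ddbd_nt.K11.LB.Dat
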